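import Pool.Agent.H458.EC.Rat

/-!
# Entire curves with Ostrowski gaps in projective hypersurfaces (Kobayashi hyperbolicity)

Let `F` be a form of degree `d` and `f` an entire lift of an entire curve in `X = {F = 0}`. If the
Taylor coefficients of `f` vanish between `N + 1` and `d N`, then the Taylor polynomial of degree `N`
is a rational curve in `X`.
-/

namespace Pool.Agent.Results.MP_b509a1_ag.OstrowskiGaps

open H458.EC

/-- The Taylor coefficients of `f` vanish for `N < k ≤ d N`. -/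
def Gap {n : ℕ} (d : ℕ) (f : ℂ → Fin n → ℂ) (N : ℕ) : Prop :=
  ∀ k, N < k → k ≤ d * N → tc f k = 0

/-- The Taylor polynomial of degree `N`. -/
noncomputable def taylor {n : ℕ} (f : ℂ → Fin n → ℂ) (N : ℕ) (t : ℂ) : Fin n → ℂ :=
  poly (D := N) (fun j => tc f j) t

theorem fr_trunc {n d N : ℕ} {f : ℂ → Fin n → ℂ} (hG : Gap d f N) :
    Fr d {k | tc f k ≠ 0} (fun k => if k ≤ N then 1 else 0) := by
  have key : ∀ s t : Multiset ℕ, s.card ≤ d → (∀ k ∈ t, tc f k ≠ 0) → s.sum = t.sum →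
      (∀ k ∈ s, k ≤ N) → ∀ k ∈ t, k ≤ N := by
    intro s t hs ht hst hsN k hk
    by_contra hkN
    push Not at hkN
    apply ht k hk
    apply hG k hkN
    calc k ≤ t.sum := Multiset.le_sum_of_mem hk
      _ = s.sum := hst.symm
      _ ≤ s.card • N := Multiset.sum_le_card_nsmul s N hsN
      _ ≤ d * N := by rw [smul_eq_mul]; exact Nat.mul_le_mul_right _ hs
  have one : ∀ s : Multiset ℕ, (∀ k ∈ s, k ≤ N) →
      (s.map fun k => if k ≤ N then (1:ℂ) else 0).prod = 1 := by
    intro s hs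
    apply Multiset.prod_eq_one
    intro x hx
    obtain ⟨k, hk, rfl⟩ := Multiset.mem_map.1 hx
    simp [hs k hk]
  have zero : ∀ s : Multiset ℕ, ¬ (∀ k ∈ s, k ≤ N) →
      (s.map fun k => if k ≤ N then (1:ℂ) else 0).prod = 0 := by
    intro s hs
    push Not at hs
    obtain ⟨k, hk, hkN⟩ := hs
    apply Multiset.prod_eq_zero
    rw [Multiset.mem_map]
    exact ⟨k, hk, by simp [hkN]⟩
  intro s t hst hs hsE htE hsum
  by_cases h : ∀ k ∈ s, k ≤ N
  · rw [one s h, one t (key s t hs htE hsum h)]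
  · have h' : ¬ ∀ k ∈ t, k ≤ N := fun h' => h (key t s (by omega) hsE hsum.symm h')
    rw [zero s h, zero t h']

theorem tw_trunc {n : ℕ} (f : ℂ → Fin n → ℂ) (N : ℕ) (z : ℂ) :
    tw (fun k => if k ≤ N then 1 else 0) f z = taylor f N z := by
  unfold tw taylor poly
  rw [tsum_eq_sum (s := Finset.range (N + 1)), Fin.sum_univ_eq_sum_range (fun j => z ^ j • tc f j)]
  · apply Finset.sum_congr rfl
    intro k hk
    have : k ≤ N := by
      have := Finset.mem_range.1 hk
      omega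
    simp [this]
  · intro k hk
    have : ¬ k ≤ N := by
      intro h
      apply hk
      rw [Finset.mem_range]; omega
    simp [this]

theorem taylor_mem {n d N : ℕ} {S : Set (MvPolynomial (Fin n) ℂ)} (hS : Forms d S)
    {f : ℂ → Fin n → ℂ} (hf : Differentiable ℂ f) (hX : ∀ z, f z ∈ Cone S) (hG : Gap d f N)
    (t : ℂ) : taylor f N t ∈ Cone S := by
  rw [← tw_trunc]
  apply character hS hf hX zero_le_one (C := 1) _ (fr_trunc hG)
  intro k _
  rw [one_pow, mul_one]
  split_ifs <;> simp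

theorem taylor_tendsto {n : ℕ} {f : ℂ → Fin n → ℂ} (hf : Differentiable ℂ f) (z : ℂ) :
    Filter.Tendsto (fun N => taylor f N z) Filter.atTop (nhds (f z)) := by
  have h := (hasSum_tc hf z).tendsto_sum_nat
  have h2 := h.comp (Filter.tendsto_add_atTop_nat 1)
  refine h2.congr ?_
  intro N
  unfold taylor poly
  rw [Fin.sum_univ_eq_sum_range (fun j => z ^ j • tc f j)]
  rfl

theorem nonConst_taylor {n : ℕ} {f : ℂ → Fin n → ℂ} (hf : Differentiable ℂ f) (hc : NonConst f) :
    ∃ N0, ∀ N, N0 ≤ N → NonConst (taylor f N) := by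
  obtain ⟨s, t, hst⟩ := hc
  have : ∃ i j, f s i * f t j - f s j * f t i ≠ 0 := by
    by_contra h
    push Not at h
    exact (not_li_iff _ _).2 h hst
  obtain ⟨i, j, hij⟩ := this
  have h1 : Filter.Tendsto (fun N => taylor f N s i * taylor f N t j
      - taylor f N s j * taylor f N t i) Filter.atTop (nhds (f s i * f t j - f s j * f t i)) := by
    have hs := tendsto_pi_nhds.1 (taylor_tendsto hf s)
    have ht := tendsto_pi_nhds.1 (taylor_tendsto hf t)
    exact ((hs i).mul (ht j)).sub ((hs j).mul (ht i))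
  have h2 := h1.eventually_ne hij
  obtain ⟨N0, hN0⟩ := Filter.eventually_atTop.1 h2
  refine ⟨N0, fun N hN => ⟨s, t, ?_⟩⟩
  by_contra h
  exact hN0 N hN ((not_li_iff _ _).1 h i j)

theorem result {n d : ℕ} {S : Set (MvPolynomial (Fin n) ℂ)} (hS : Forms d S)
    {f : ℂ → Fin n → ℂ} (hf : Differentiable ℂ f) (hX : ∀ z, f z ∈ Cone S) :
    -- one gap: the Taylor polynomial is a curve in `X`
    (∀ N, Gap d f N → ∀ t, taylor f N t ∈ Cone S) ∧
    -- infinitely many gaps: `f` is a limit of nonconstant rational curves in `X`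
    ((∀ M, ∃ N, M ≤ N ∧ Gap d f N) → NonConst f →
      (∃ N0, ∀ N, N0 ≤ N → NonConst (taylor f N)) ∧
      ∀ z, f z ∈ closure {w | ∃ (D : ℕ) (v : Fin (D + 1) → Fin n → ℂ),
        (∀ t, poly v t ∈ Cone S) ∧ NonConst (poly v) ∧ ∃ t, w = poly v t}) ∧
    -- no rational curves in `X`: no such entire curve
    ((∀ M, ∃ N, M ≤ N ∧ Gap d f N) →
      (∀ (D : ℕ) (v : Fin (D + 1) → Fin n → ℂ), (∀ t, poly v t ∈ Cone S) → ¬ NonConst (poly v)) →
      ¬ NonConst f) := by
  have h2 : (∀ M, ∃ N, M ≤ N ∧ Gap d f N) → NonConst f →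
      (∃ N0, ∀ N, N0 ≤ N → NonConst (taylor f N)) ∧
      ∀ z, f z ∈ closure {w | ∃ (D : ℕ) (v : Fin (D + 1) → Fin n → ℂ),
        (∀ t, poly v t ∈ Cone S) ∧ NonConst (poly v) ∧ ∃ t, w = poly v t} := by
    intro hgap hc
    refine ⟨nonConst_taylor hf hc, fun z => ?_⟩
    obtain ⟨N0, hN0⟩ := nonConst_taylor hf hc
    have hfreq : ∃ᶠ N in Filter.atTop, taylor f N z ∈
        {w | ∃ (D : ℕ) (v : Fin (D + 1) → Fin n → ℂ),
        (∀ t, poly v t ∈ Cone S) ∧ NonConst (poly v) ∧ ∃ t, w = poly v t} := by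
      rw [Filter.frequently_atTop]
      intro M
      obtain ⟨N, hN, hG⟩ := hgap (max M N0)
      exact ⟨N, le_trans (le_max_left _ _) hN, N, fun j => tc f j,
        fun t => taylor_mem hS hf hX hG t, hN0 N (le_trans (le_max_right _ _) hN), z, rfl⟩
    exact mem_closure_of_frequently_of_tendsto hfreq (taylor_tendsto hf z)
  refine ⟨fun N hG t => taylor_mem hS hf hX hG t, h2, fun hgap hno hc => ?_⟩
  obtain ⟨N0, hN0⟩ := nonConst_taylor hf hc
  obtain ⟨N, hN, hG⟩ := hgap N0
  exact hno N (fun j => tc f j) (fun t => taylor_mem hS hf hX hG t) (hN0 N hN)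

end Pool.Agent.Results.MP_b509a1_ag.OstrowskiGaps
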